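import Mathlib
import Pool.Agent.H387R2.MB15

set_option autoImplicit false

/-! Uniform upper bound for the number of prime tuples. -/

namespace Pool.Agent.W218.TX

open Finset Filter Topology Pool.Agent.H387R2 Pool.Agent.H387R2.MB Pool.Agent.H378R2

/-- upper bound for the smooth count -/
theorem ST_upper (k : ℕ) : ∃ b : ℝ, 0 < b ∧ ∀ C : ℝ, ∀ᶠ N : ℕ in atTop, ∀ T : Finset ℕ,
    T.card = k + 1 → (∀ t ∈ T, t ≤ ⌊Real.log N ^ C⌋₊) →
      MB.ST N T ≤ b * ((N / Real.log N ^ (k + 1)) * Uni.CT T) := by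
  classical
  obtain ⟨C1, hC1, hupp⟩ := upp_eventually (k + 1) (δ := 1 / 10) (by norm_num)
  set C4 : ℝ := 400 ^ (k + 1) with hC4
  have hC40 : 0 < C4 := by positivity
  refine ⟨C1 * C4, by positivity, fun C => ?_⟩
  have tN : Tendsto (fun N : ℕ => (N : ℝ)) atTop atTop := tendsto_natCast_atTop_atTop
  have tL : Tendsto (fun N : ℕ => Real.log (N : ℝ)) atTop atTop := Real.tendsto_log_atTop.comp tN
  have tu : Tendsto (fun N : ℕ => Real.log (Real.log (N : ℝ))) atTop atTop := Real.tendsto_log_atTop.comp tL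
  have ty : Tendsto (fun N : ℕ => ⌊Real.log (Real.log (N : ℝ))⌋₊) atTop atTop :=
    tendsto_nat_floor_atTop.comp tu
  have tX : Tendsto (fun N : ℕ => (N : ℝ) / 4) atTop atTop := tN.atTop_div_const (by norm_num)
  filter_upwards [hupp C, Uni.par_eventually k C (by norm_num : (0:ℝ) < 1 / 2) (by norm_num) 1,
    (LL_tendsto.comp tX).eventually_ge_atTop 1,
    tX.eventually_ge_atTop (40 + (k + 1)), ty.eventually_ge_atTop (2 * (k + 1) ^ 2), tu.eventually_ge_atTop 1,
    tN.eventually (Uni.log_pow_small 1 (η := 1 / 4) (by norm_num))]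
    with N h2 hP h6 h7 h8 h10 h11
  intro T hTc hTM
  set M := ⌊Real.log N ^ C⌋₊ with hM
  set X := (N:ℝ) / 4 with hX
  set y := ⌊Real.log (Real.log (N:ℝ))⌋₊ with hy
  set W := Uni.WW y with hW
  set L := Real.log (N:ℝ) with hL
  have hL1 : 1 ≤ L := hP.hL
  have hL0 : 0 < L := by linarith
  have hLL1 : 1 ≤ LL X := h6
  have hLL0 : 0 < LL X := by linarith
  have hρ := rho_pos y
  have hWpos : 0 < W := Uni.WW_pos y
  have hW0 : (0:ℝ) < W := by exact_mod_cast hWpos
  have hk0 : (0:ℝ) ≤ k := Nat.cast_nonneg k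
  have hX40 : 40 ≤ X := by linarith
  have hX0 : 0 < X := by linarith
  have hNX : (N:ℝ) = 4 * X := by rw [hX]; ring
  have hLLL : L ≤ 400 * LL X := by
    have := log4X (by linarith : 4 ≤ X)
    rw [← hNX] at this
    exact this
  have hy1 : 1 ≤ y := by
    have : 1 ≤ (k + 1) ^ 2 := Nat.one_le_pow _ _ (by omega)
    omega
  have hy0 : (0:ℝ) < y := by exact_mod_cast hy1
  set u := Real.log (Real.log (N:ℝ)) with hu
  have hu0 : 0 < u := by linarith
  have hyu : (y:ℝ) ≤ u := Nat.floor_le hu0.le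
  have huL : u ≤ L := by
    rw [hu]
    exact (Real.log_le_sub_one_of_pos hL0).trans (by linarith)
  have hLX : L ≤ X := by
    rw [Real.rpow_one] at h11
    rw [hX, hL]
    linarith
  set V : ℝ := N / L ^ (k + 1) with hV
  have hV0 : 0 ≤ V := by positivity
  have hφW : ((W : ℝ) / Nat.totient W) = 1 / rho y := by
    unfold rho
    rw [← hW, one_div_div]
  have hMu : MPhi X ≤ 2 * X := MPhi_le X (by linarith)
  have hUe : ∀ g : ℝ, g * UU (k + 1) X y = ((1 / rho y) ^ (k + 1) * (g / W)) * (MPhi X / LL X ^ (k + 1)) := by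
    intro g
    unfold UU
    rw [← hW, mul_pow, one_div_pow]
    field_simp
  have hr2 : MPhi X / LL X ^ (k + 1) ≤ (400:ℝ) ^ (k + 1) / 2 * V := by
    rw [hV, hNX]
    have : (400:ℝ) ^ (k + 1) / 2 * (4 * X / L ^ (k + 1)) = (2 * X) / (L / 400) ^ (k + 1) := by
      rw [div_pow]; field_simp; ring
    rw [this]
    apply div_le_div₀ (by positivity) hMu (by positivity)
    apply pow_le_pow_left₀ (by positivity)
    linarith
  have hhi : (Uni.gT W T : ℝ) * UU (k + 1) X y ≤ C4 * V * Uni.CT T := by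
    have k1 := Uni.CT_ge T y hy1 (by rw [hTc]; exact h8)
    rw [hTc, ← hW, hφW] at k1
    rw [hUe]
    set z := (1 / rho y) ^ (k + 1) * ((Uni.gT W T : ℝ) / W) with hz
    have hz0 : 0 ≤ z := by positivity
    calc z * (MPhi X / LL X ^ (k + 1)) ≤ z * ((400:ℝ) ^ (k + 1) / 2 * V) := mul_le_mul_of_nonneg_left hr2 hz0
      _ = C4 * V * (z / 2) := by rw [hC4]; ring
      _ ≤ C4 * V * Uni.CT T := mul_le_mul_of_nonneg_left k1 (by positivity)
  have k1 := ST_le h2 hC1.le T hTc hTM hLL0.le (hyu.trans (huL.trans hLX)) hX0 (by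
      calc Real.exp (1 / 10 * LL X) ≤ Real.exp (Real.log X) := by
            apply Real.exp_le_exp.2
            unfold LL
            have : 0 ≤ Real.log X := Real.log_nonneg (by linarith)
            linarith
        _ = X := Real.exp_log hX0)
  refine k1.trans ?_
  have := mul_le_mul_of_nonneg_left hhi hC1.le
  calc (Uni.gT W T : ℝ) * (C1 * UU (k + 1) X y) = C1 * ((Uni.gT W T : ℝ) * UU (k + 1) X y) := by ring
    _ ≤ C1 * (C4 * V * Uni.CT T) := this
    _ = _ := by ring

lemma WW_le (y : ℕ) : Uni.WW y ≤ 4 ^ y := by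
  refine le_trans (le_of_eq ?_) (primorial_le_four_pow y)
  unfold Uni.WW primorial
  rfl

/-- lower bound for the constant of an admissible pattern -/
theorem CT_low (k : ℕ) (C : ℝ) : ∀ᶠ N : ℕ in atTop, ∀ T : Finset ℕ,
    T.card = k + 1 → (∀ t ∈ T, t ≤ ⌊Real.log N ^ C⌋₊) → Uni.Adm T →
      1 / (2 * Real.log N ^ 2) ≤ Uni.CT T := by
  have tN : Tendsto (fun N : ℕ => (N : ℝ)) atTop atTop := tendsto_natCast_atTop_atTop
  have tL : Tendsto (fun N : ℕ => Real.log (N : ℝ)) atTop atTop := Real.tendsto_log_atTop.comp tN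
  have tu : Tendsto (fun N : ℕ => Real.log (Real.log (N : ℝ))) atTop atTop := Real.tendsto_log_atTop.comp tL
  have ty : Tendsto (fun N : ℕ => ⌊Real.log (Real.log (N : ℝ))⌋₊) atTop atTop :=
    tendsto_nat_floor_atTop.comp tu
  filter_upwards [Uni.par_eventually k C (by norm_num : (0:ℝ) < 1 / 2) (by norm_num) 1,
    ty.eventually_ge_atTop (2 * (k + 1) ^ 2), tu.eventually_ge_atTop 1] with N hP h8 h10
  intro T hTc hTM hadm
  set y := ⌊Real.log (Real.log (N:ℝ))⌋₊ with hy
  set W := Uni.WW y with hW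
  set L := Real.log (N:ℝ) with hL
  have hL1 : 1 ≤ L := hP.hL
  have hL0 : 0 < L := by linarith
  have hρ := rho_pos y
  have hρ1 := rho_le_one y
  have hWpos : 0 < W := Uni.WW_pos y
  have hW0 : (0:ℝ) < W := by exact_mod_cast hWpos
  have hy1 : 1 ≤ y := by
    have : 1 ≤ (k + 1) ^ 2 := Nat.one_le_pow _ _ (by omega)
    omega
  have hu0 : 0 < Real.log L := by linarith
  have hyu : (y:ℝ) ≤ Real.log L := Nat.floor_le hu0.le
  have hφW : ((W : ℝ) / Nat.totient W) = 1 / rho y := by
    unfold rho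
    rw [← hW, one_div_div]
  have hCT0 : 0 < Uni.CT T := by
    rw [← Uni.CT_en]
    apply Pool.Agent.H386R2.HL.singularSeries_pos (Uni.en_inj T)
    intro p hp
    rw [Uni.nu_en]
    exact hadm p hp
  have k2 := Uni.CT_le T y (K := 2) (by norm_num) (M := ⌊Real.log N ^ C⌋₊) hTM
    (fun n hn1 hn2 => (hP.htt n hn1 hn2).trans (by norm_num))
  have hg1 : 1 ≤ Uni.gT W T := by
    by_contra hg
    have hg0 : Uni.gT W T = 0 := by omega
    rw [← hW, hg0] at k2
    simp at k2
    linarith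
  have hg1r : (1:ℝ) ≤ Uni.gT W T := by exact_mod_cast hg1
  have k1 := Uni.CT_ge T y hy1 (by rw [hTc]; exact h8)
  rw [hTc, ← hW, hφW] at k1
  refine le_trans ?_ k1
  have h1 : (1:ℝ) ≤ (1 / rho y) ^ (k + 1) := one_le_pow₀ (by rw [le_div_iff₀ hρ]; linarith)
  have hWL : (W : ℝ) ≤ L ^ 2 := by
    calc (W : ℝ) ≤ ((4 ^ y : ℕ) : ℝ) := by exact_mod_cast WW_le y
      _ = (4:ℝ) ^ y := by push_cast; rfl
      _ ≤ (Real.exp 2) ^ y := by
          apply pow_le_pow_left₀ (by norm_num)
          have h3 := Real.exp_one_gt_d9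
          have h4 : Real.exp 2 = Real.exp 1 ^ 2 := by rw [← Real.exp_nat_mul]; norm_num
          rw [h4]
          calc (4 : ℝ) ≤ 2.7182818283 ^ 2 := by norm_num
            _ ≤ _ := by gcongr
      _ = Real.exp (y * 2) := by rw [← Real.exp_nat_mul]
      _ ≤ Real.exp (Real.log L * 2) := Real.exp_le_exp.2 (by linarith)
      _ = L ^ 2 := by
          rw [mul_comm, show (2:ℝ) * Real.log L = ((2:ℕ):ℝ) * Real.log L by norm_num,
            Real.exp_nat_mul, Real.exp_log hL0]
  calc 1 / (2 * L ^ 2) = (1 * (1 / L ^ 2)) / 2 := by field_simp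
    _ ≤ ((1 / rho y) ^ (k + 1) * ((Uni.gT W T : ℝ) / W)) / 2 := by
        apply div_le_div_of_nonneg_right _ (by norm_num)
        apply mul_le_mul h1 _ (by positivity) (by positivity)
        apply div_le_div₀ (by positivity) hg1r hW0 hWL

/-- the numbers `n ∈ (a, b]` with `n + T` prime -/
def cn (T : Finset ℕ) (a b : ℕ) : ℕ := ((Ioc a b).filter (fun n => ∀ t ∈ T, (n + t).Prime)).card

lemma mid_count {M : ℕ} (hM : 40 ≤ M) (T : Finset ℕ) :
    (cn T (M / 2) M : ℝ) ≤ 20 * MB.ST (17 * M / 10) T := by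
  classical
  set N' : ℕ := 17 * M / 10 with hN'
  have a1 : 10 * N' ≤ 17 * M := by omega
  have a2 : 17 * M < 10 * N' + 10 := by omega
  have b1 : (10:ℝ) * N' ≤ 17 * M := by exact_mod_cast a1
  have b2 : (17:ℝ) * M < 10 * N' + 10 := by exact_mod_cast a2
  have b3 : (40:ℝ) ≤ M := by exact_mod_cast hM
  have hX0 : (0:ℝ) < (N':ℝ) / 4 := by linarith
  unfold cn MB.ST
  rw [card_filter]
  push_cast
  have h1 : ∀ n ∈ Ioc (M / 2) M, n ∈ Icc 1 ⌊3 * ((N':ℝ) / 4)⌋₊ ∧
      (1:ℝ) ≤ 20 * Phi ((n:ℝ) / ((N':ℝ) / 4)) := by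
    intro n hn
    rw [mem_Ioc] at hn
    have c1 : M < 2 * n := by omega
    have c2 : (M:ℝ) < 2 * n := by exact_mod_cast c1
    have c3 : (n:ℝ) ≤ M := by exact_mod_cast hn.2
    constructor
    · rw [mem_Icc]
      refine ⟨by omega, Nat.le_floor ?_⟩
      linarith
    · have := Phi_mid (u := (n:ℝ) / ((N':ℝ) / 4)) (by
        rw [le_div_iff₀ hX0]; linarith) (by
        rw [div_le_iff₀ hX0]; linarith)
      linarith
  rw [mul_sum]
  calc ∑ n ∈ Ioc (M / 2) M, (if ∀ t ∈ T, (n + t).Prime then (1:ℝ) else 0)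
      ≤ ∑ n ∈ Ioc (M / 2) M, 20 * (Phi ((n:ℝ) / ((N':ℝ) / 4)) *
          (if ∀ t ∈ T, (n + t).Prime then (1:ℝ) else 0)) := by
        apply sum_le_sum
        intro n hn
        have := (h1 n hn).2
        split_ifs
        · linarith
        · simp
    _ ≤ _ := by
        apply sum_le_sum_of_subset_of_nonneg
        · intro n hn
          exact (h1 n hn).1
        · intro n _ _
          have := Phi_nonneg ((n:ℝ) / ((N':ℝ) / 4))
          split_ifs
          · linarith
          · simp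

lemma dyad (T : Finset ℕ) {s N : ℕ} {K : ℝ} (hK : 0 ≤ K)
    (H : ∀ M, s ≤ M → M ≤ N → (cn T (M / 2) M : ℝ) ≤ K * M) (hs : 1 ≤ s) :
    ∀ M, M ≤ N → (cn T 0 M : ℝ) ≤ s + 2 * K * M := by
  intro M
  induction M using Nat.strong_induction_on with
  | _ M ih =>
    intro hMN
    by_cases hMs : M < s
    · have h1 : cn T 0 M ≤ M := by
        unfold cn
        exact (card_filter_le _ _).trans (by simp)
      have h2 : (cn T 0 M : ℝ) ≤ s := by exact_mod_cast (h1.trans hMs.le)
      have : 0 ≤ 2 * K * M := by positivity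
      linarith
    · push Not at hMs
      have hM2 : M / 2 < M := Nat.div_lt_self (by omega) (by norm_num)
      have h1 := ih (M / 2) hM2 (hM2.le.trans hMN)
      have h2 := H M hMs hMN
      have h3 : cn T 0 M ≤ cn T 0 (M / 2) + cn T (M / 2) M := by
        unfold cn
        rw [← card_union_of_disjoint]
        · apply card_le_card
          intro n hn
          rw [mem_filter, mem_Ioc] at hn
          rw [mem_union, mem_filter, mem_filter, mem_Ioc, mem_Ioc]
          by_cases h : n ≤ M / 2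
          · left; exact ⟨⟨hn.1.1, h⟩, hn.2⟩
          · right; exact ⟨⟨by omega, hn.1.2⟩, hn.2⟩
        · rw [disjoint_left]
          intro n hn hn'
          rw [mem_filter, mem_Ioc] at hn hn'
          omega
      have h4 : ((M / 2 : ℕ) : ℝ) ≤ M / 2 := Nat.cast_div_le
      have h5 : (cn T 0 M : ℝ) ≤ cn T 0 (M / 2) + cn T (M / 2) M := by exact_mod_cast h3
      have h6 : 2 * K * ((M / 2 : ℕ) : ℝ) ≤ 2 * K * (M / 2) := by gcongr
      linarith

/-- **uniform upper bound** -/
theorem pi_upper (k : ℕ) : ∃ B : ℝ, 0 < B ∧ ∀ C : ℝ, ∀ᶠ N : ℕ in atTop, ∀ T : Finset ℕ,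
    T.card = k + 1 → (∀ t ∈ T, (t : ℝ) ≤ Real.log N ^ C) →
      (Uni.piT T N : ℝ) ≤ B * ((N / Real.log N ^ (k + 1)) * Uni.CT T) := by
  classical
  obtain ⟨b, hb, hST⟩ := ST_upper k
  refine ⟨1 + 68 * b * 2 ^ (k + 1), by positivity, fun C => ?_⟩
  set Cp : ℝ := max C 0 with hCp
  have hC0 : 0 ≤ Cp := le_max_right _ _
  obtain ⟨N₁, hN₁⟩ := eventually_atTop.1 (hST (Cp + 1))
  have tN : Tendsto (fun N : ℕ => (N : ℝ)) atTop atTop := tendsto_natCast_atTop_atTop
  have tL : Tendsto (fun N : ℕ => Real.log (N : ℝ)) atTop atTop := Real.tendsto_log_atTop.comp tN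
  have tS : Tendsto (fun N : ℕ => Real.sqrt (N : ℝ)) atTop atTop := by
    have := (tendsto_rpow_atTop (by norm_num : (0:ℝ) < 1 / 2)).comp tN
    refine this.congr fun N => ?_
    simp only [Function.comp]
    rw [Real.sqrt_eq_rpow]
  filter_upwards [CT_low k C, tS.eventually_ge_atTop (N₁ : ℝ), tS.eventually_ge_atTop 40,
    tL.eventually_ge_atTop (max 4 (2 * 2 ^ Cp)),
    tN.eventually (Uni.log_pow_small (2 * (k + 3 : ℕ) : ℝ) (η := 1 / 64) (by norm_num)),
    tN.eventually (Uni.log_pow_small (2 * Cp) (η := 1) (by norm_num))]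
    with N hlow e1 e2 e3 e4 e5
  intro T hTc hTM
  have hL4 : 4 ≤ Real.log N := (le_max_left _ _).trans e3
  set L := Real.log (N:ℝ) with hL
  have hL0 : 0 < L := by linarith
  have hN0 : (0:ℝ) < N := by
    by_contra h
    have h0 : (N:ℝ) = 0 := le_antisymm (not_lt.1 h) (Nat.cast_nonneg N)
    rw [hL, h0, Real.log_zero] at hL4
    linarith
  have hV0 : 0 < (N:ℝ) / L ^ (k + 1) := by positivity
  by_cases hadm : Uni.Adm T
  swap
  · unfold Uni.piT
    rw [if_neg hadm]
    have := Uni.CT_nonneg T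
    push_cast
    positivity
  have hTM' : ∀ t ∈ T, t ≤ ⌊Real.log N ^ C⌋₊ := fun t ht => Nat.le_floor (hTM t ht)
  have hCT := hlow T hTc hTM' hadm
  have hCT0 : 0 < Uni.CT T := lt_of_lt_of_le (by positivity) hCT
  -- the upper bound of the elements
  have hel : ∀ t ∈ T, (t:ℝ) ≤ L ^ Cp := fun t ht => (hTM t ht).trans
    (Real.rpow_le_rpow_of_exponent_le (by linarith) (le_max_left _ _))
  have hLS : L ^ Cp ≤ Real.sqrt N := by
    have h1 : (L ^ Cp) ^ 2 ≤ N := by
      rw [← Real.rpow_natCast, ← Real.rpow_mul hL0.le, mul_comm]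
      push_cast
      linarith
    exact Real.le_sqrt_of_sq_le h1
  set s : ℕ := Nat.sqrt N + 1 with hs
  have hs1 : Real.sqrt N ≤ s := by
    have h1 : N < s * s := by rw [hs]; exact Nat.lt_succ_sqrt N
    rw [Real.sqrt_le_left (Nat.cast_nonneg _)]
    have h2 : (N:ℝ) < s * s := by exact_mod_cast h1
    rw [sq]; exact h2.le
  have hs2 : (s:ℝ) ≤ 2 * Real.sqrt N := by
    rw [hs]
    push_cast
    have h1 : ((Nat.sqrt N : ℕ) : ℝ) ≤ Real.sqrt N := Real.nat_sqrt_le_real_sqrt
    linarith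
  set K : ℝ := 34 * b * 2 ^ (k + 1) * (Uni.CT T / L ^ (k + 1)) with hK
  have hK0 : 0 ≤ K := by positivity
  have hH : ∀ M, s ≤ M → M ≤ N → (cn T (M / 2) M : ℝ) ≤ K * M := by
    intro M hsM hMN
    have hMs : Real.sqrt N ≤ M := hs1.trans (by exact_mod_cast hsM)
    have hM40 : 40 ≤ M := by
      have : (40:ℝ) ≤ M := e2.trans hMs
      exact_mod_cast this
    refine (mid_count hM40 T).trans ?_
    set N' : ℕ := 17 * M / 10 with hN'
    have hN'M : M ≤ N' := by omega
    have hN'N : Real.sqrt N ≤ N' := hMs.trans (by exact_mod_cast hN'M)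
    have hN'1 : N₁ ≤ N' := by
      have : (N₁:ℝ) ≤ N' := e1.trans hN'N
      exact_mod_cast this
    have hN'0 : (0:ℝ) < N' := by
      have : (0:ℝ) < Real.sqrt N := by linarith
      linarith
    have hlog : L / 2 ≤ Real.log N' := by
      have h1 : Real.log (Real.sqrt N) ≤ Real.log N' :=
        Real.log_le_log (by linarith) hN'N
      rw [Real.log_sqrt hN0.le] at h1
      exact h1
    have hl0 : 0 < Real.log (N':ℝ) := by linarith
    have h1 := hN₁ N' hN'1 T hTc (by
      intro t ht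
      apply Nat.le_floor
      refine (hel t ht).trans ?_
      calc L ^ Cp ≤ (2 * Real.log N') ^ Cp := Real.rpow_le_rpow hL0.le (by linarith) hC0
        _ = 2 ^ Cp * Real.log N' ^ Cp := Real.mul_rpow (by norm_num) hl0.le
        _ ≤ Real.log N' * Real.log N' ^ Cp := by
            apply mul_le_mul_of_nonneg_right _ (by positivity)
            have : 2 * 2 ^ Cp ≤ L := (le_max_right _ _).trans e3
            linarith
        _ = Real.log N' ^ (Cp + 1) := by
            rw [Real.rpow_add hl0, Real.rpow_one, mul_comm])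
    have hN'2 : (N':ℝ) ≤ 17 / 10 * M := by
      have : 10 * N' ≤ 17 * M := by omega
      have h : (10:ℝ) * N' ≤ 17 * M := by exact_mod_cast this
      linarith
    calc 20 * MB.ST N' T ≤ 20 * (b * ((N' / Real.log N' ^ (k + 1)) * Uni.CT T)) := by linarith
      _ ≤ 20 * (b * (((17 / 10 * M) / (L / 2) ^ (k + 1)) * Uni.CT T)) := by
          gcongr
      _ = K * M := by
          rw [hK, div_pow]
          field_simp
          ring
  have hdy := dyad T hK0 hH (by omega) N le_rfl
  -- comparison with `piT`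
  set m0 : ℕ := sInf (T : Set ℕ) with hm0
  have hTne : (T : Set ℕ).Nonempty := by
    have : 0 < T.card := by omega
    exact_mod_cast card_pos.1 this
  have hm0T : m0 ∈ T := by
    have := Nat.sInf_mem hTne
    exact_mod_cast this
  have hm0le : ∀ t ∈ T, m0 ≤ t := fun t ht => Nat.sInf_le (by exact_mod_cast ht)
  have hpi : (Uni.piT T N : ℝ) ≤ m0 + cn T 0 N := by
    unfold Uni.piT
    rw [if_pos hadm]
    have h1 : ((Icc 1 N).filter (fun p => ∀ t ∈ T, (p + (t - sInf (T : Set ℕ))).Prime)).card ≤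
        (Icc 1 m0 ∪ ((Ioc 0 N).filter (fun n => ∀ t ∈ T, (n + t).Prime)).image (fun n => n + m0)).card := by
      apply card_le_card
      intro p hp
      rw [mem_filter, mem_Icc] at hp
      rw [mem_union, mem_Icc, mem_image]
      by_cases hpm : p ≤ m0
      · left; exact ⟨hp.1.1, hpm⟩
      · right
        refine ⟨p - m0, ?_, by omega⟩
        rw [mem_filter, mem_Ioc]
        refine ⟨⟨by omega, by omega⟩, fun t ht => ?_⟩
        have h2 := hp.2 t ht
        have h3 := hm0le t ht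
        have e : p - m0 + t = p + (t - m0) := by omega
        rw [e]
        exact h2
    have h2 := h1.trans (card_union_le _ _)
    have h3 := card_image_le (s := (Ioc 0 N).filter (fun n => ∀ t ∈ T, (n + t).Prime))
      (f := fun n => n + m0)
    rw [Nat.card_Icc] at h2
    have h4 : ((Icc 1 N).filter (fun p => ∀ t ∈ T, (p + (t - sInf (T : Set ℕ))).Prime)).card ≤
        m0 + cn T 0 N := by
      unfold cn
      omega
    exact_mod_cast h4
  have hm0S : (m0:ℝ) ≤ Real.sqrt N := (hel m0 hm0T).trans hLS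
  have hsmall : 3 * Real.sqrt N ≤ (N / L ^ (k + 1)) * Uni.CT T := by
    have h1 : 64 * (L ^ (k + 3)) ^ 2 ≤ N := by
      have h2 : L ^ (2 * ((k + 3 : ℕ) : ℝ)) = (L ^ (k + 3)) ^ 2 := by
        rw [mul_comm, Real.rpow_mul hL0.le, Real.rpow_natCast]
        exact_mod_cast Real.rpow_natCast _ 2
      rw [h2] at e4
      linarith
    have h3 : 8 * L ^ (k + 3) ≤ Real.sqrt N := by
      apply Real.le_sqrt_of_sq_le
      nlinarith
    have h4 : (N / L ^ (k + 1)) * (1 / (2 * L ^ 2)) ≤ (N / L ^ (k + 1)) * Uni.CT T := by gcongr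
    refine le_trans ?_ h4
    have h5 : (N / L ^ (k + 1)) * (1 / (2 * L ^ 2)) = N / (2 * L ^ (k + 3)) := by
      rw [div_mul_div_comm, mul_one]
      congr 1
      ring
    rw [h5, le_div_iff₀ (by positivity)]
    calc 3 * Real.sqrt N * (2 * L ^ (k + 3)) = Real.sqrt N * (6 * L ^ (k + 3)) := by ring
      _ ≤ Real.sqrt N * Real.sqrt N := by
          apply mul_le_mul_of_nonneg_left _ (Real.sqrt_nonneg _)
          have : 0 ≤ L ^ (k + 3) := by positivity
          linarith
      _ = N := Real.mul_self_sqrt hN0.le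
  calc (Uni.piT T N : ℝ) ≤ m0 + cn T 0 N := hpi
    _ ≤ m0 + (s + 2 * K * N) := by linarith
    _ ≤ (N / L ^ (k + 1)) * Uni.CT T + 2 * K * N := by linarith
    _ = _ := by
        rw [hK]
        field_simp
        ring

end Pool.Agent.W218.TX
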