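import Mathlib
import Pool.Agent.W218.TX.Up
import Pool.Agent.H387R2.U8

set_option autoImplicit false

/-! The sharp constant for a positive proportion of the patterns. -/

namespace Pool.Agent.W218.TX

open Finset Filter Topology Pool.Agent.H387R2 Pool.Agent.H387R2.MB

/-- abstract positive proportion with a sharp constant -/
lemma sharp {ι : Type*} (P : Finset ι) (s c : ι → ℝ) {a θ b : ℝ} (hθ : 0 ≤ θ) (hb : 0 < b)
    (hc : ∀ T ∈ P, 0 ≤ c T)
    (h1 : a * ∑ T ∈ P, c T ≤ ∑ T ∈ P, s T) (h2 : ∀ T ∈ P, s T ≤ b * c T) [DecidablePred fun T => θ * c T ≤ s T] :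
    (a - θ) / b * ∑ T ∈ P, c T ≤ ∑ T ∈ P.filter (fun T => θ * c T ≤ s T), c T := by
  have h3 := sum_filter_add_sum_filter_not P (fun T => θ * c T ≤ s T) s
  have h4 : ∑ T ∈ P.filter (fun T => θ * c T ≤ s T), s T ≤ b * ∑ T ∈ P.filter (fun T => θ * c T ≤ s T), c T := by
    rw [mul_sum]
    exact sum_le_sum fun T hT => h2 T (mem_filter.1 hT).1
  have h5 : ∑ T ∈ P.filter (fun T => ¬ θ * c T ≤ s T), s T ≤ θ * ∑ T ∈ P, c T := by
    calc _ ≤ ∑ T ∈ P.filter (fun T => ¬ θ * c T ≤ s T), θ * c T := by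
          apply sum_le_sum
          intro T hT
          exact (not_le.1 (mem_filter.1 hT).2).le
      _ ≤ ∑ T ∈ P, θ * c T := by
          apply sum_le_sum_of_subset_of_nonneg (filter_subset _ _)
          intro T hT _
          exact mul_nonneg hθ (hc T hT)
      _ = _ := by rw [mul_sum]
  rw [div_mul_eq_mul_div, div_le_iff₀ hb]
  nlinarith

/-- the logarithmic integral from below -/
lemma int_low (m : ℕ) {N : ℕ} (hN : 3 ≤ N) :
    ((N:ℝ) - 2) / Real.log N ^ m ≤ ∫ t in (2:ℝ)..N, 1 / Real.log t ^ m := by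
  have hN3 : (3:ℝ) ≤ N := by exact_mod_cast hN
  have hN2 : (2:ℝ) ≤ N := by linarith
  have hc : ∫ _t in (2:ℝ)..N, 1 / Real.log N ^ m = ((N:ℝ) - 2) / Real.log N ^ m := by
    rw [intervalIntegral.integral_const, smul_eq_mul, mul_one_div]
  rw [← hc]
  apply intervalIntegral.integral_mono_on hN2
  · exact intervalIntegrable_const
  · apply ContinuousOn.intervalIntegrable
    intro t ht
    rw [Set.uIcc_of_le hN2, Set.mem_Icc] at ht
    apply ContinuousAt.continuousWithinAt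
    have ht0 : t ≠ 0 := by linarith [ht.1]
    have hl : 0 < Real.log t := Real.log_pos (by linarith [ht.1])
    exact ContinuousAt.div continuousAt_const ((Real.continuousAt_log ht0).pow m) (by positivity)
  · intro t ht
    rw [Set.mem_Icc] at ht
    have hl : 0 < Real.log t := Real.log_pos (by linarith [ht.1])
    apply one_div_le_one_div_of_le (by positivity)
    apply pow_le_pow_left₀ hl.le
    exact Real.log_le_log (by linarith) ht.2

open Classical in
/-- **the sharp constant for a positive proportion of the patterns of every set** -/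
theorem sharpMain (k : ℕ) : ∃ κ : ℝ, 0 < κ ∧ ∀ lam : ℝ, (k : ℝ) < lam → ∀ θ : ℝ, 0 < θ →
    θ < ∏ i ∈ range k, (1 - (i + 1 : ℝ) / lam) → ∀ q : ℕ, 1 ≤ q → ∀ C : ℝ, ∃ N₀ : ℕ, ∀ N : ℕ, N₀ ≤ N →
      ∀ (c : ℕ) (A : Finset ℕ), (∀ a ∈ A, a ≡ c [MOD q]) → (∀ a ∈ A, (a : ℝ) ≤ Real.log N ^ C) →
        lam * ((Nat.totient q : ℝ) / q) * Real.log N ≤ A.card →
        κ * ((q : ℝ) / Nat.totient q) ^ k * (A.card : ℝ) ^ (k + 1) ≤ ∑ T ∈ A.powersetCard (k + 1), Uni.CT T ∧
        κ * (∏ i ∈ range k, (1 - (i + 1 : ℝ) / lam) - θ) * ∑ T ∈ A.powersetCard (k + 1), Uni.CT T ≤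
          ∑ T ∈ (A.powersetCard (k + 1)).filter
            (fun T => θ * Uni.CT T * (N / Real.log N ^ (k + 1)) ≤ Uni.piT T N), Uni.CT T := by
  obtain ⟨B, hB, hup⟩ := pi_upper k
  set c5 : ℝ := (1 / 2) ^ (k + 1) / (3 / 2) ^ k / (k + 1).factorial / 2 with hc5
  have hc50 : 0 < c5 := by positivity
  refine ⟨min c5 (1 / (3 * B)), lt_min hc50 (by positivity), ?_⟩
  intro lam hlam θ hθ0 hθ q hq C
  set P : ℝ := ∏ i ∈ range k, (1 - (i + 1 : ℝ) / lam) with hP
  have hlam0 : 0 < lam := lt_of_le_of_lt (Nat.cast_nonneg k) hlam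
  set θ1 : ℝ := (θ + 2 * P) / 3 with hθ1
  set θ2 : ℝ := (2 * θ + P) / 3 with hθ2
  have h21 : θ2 < θ1 := by rw [hθ1, hθ2]; linarith
  have h1P : θ1 < P := by rw [hθ1]; linarith
  have h20 : 0 < θ2 := by rw [hθ2]; linarith
  have h10 : 0 < θ1 := by linarith
  obtain ⟨N₁, hN₁⟩ := Uni.universal k q hq lam θ1 C hlam h10 h1P
  have tN : Tendsto (fun N : ℕ => (N : ℝ)) atTop atTop := tendsto_natCast_atTop_atTop
  rw [← eventually_atTop]
  filter_upwards [CT_sum_ge k hlam0 q hq C, hup C, eventually_ge_atTop N₁, eventually_ge_atTop 3,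
    tN.eventually_ge_atTop (2 * θ1 / (θ1 - θ2))] with N g1 g2 g3 g4 g5
  intro c A hAc hA hcard
  have hAM : ∀ a ∈ A, a ≤ ⌊Real.log N ^ C⌋₊ := fun a ha => Nat.le_floor (hA a ha)
  have hS0 : 0 ≤ ∑ T ∈ A.powersetCard (k + 1), Uni.CT T := sum_nonneg fun T _ => Uni.CT_nonneg T
  constructor
  · refine le_trans ?_ (g1 c A hAc hAM hcard)
    have : 0 ≤ ((q : ℝ) / Nat.totient q) ^ k := by positivity
    exact mul_le_mul_of_nonneg_right (mul_le_mul_of_nonneg_right (min_le_left _ _) this)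
      (pow_nonneg (Nat.cast_nonneg _) _)
  · have hN3 : (3:ℝ) ≤ N := by exact_mod_cast g4
    have hL0 : 0 < Real.log N := Real.log_pos (by linarith)
    set V : ℝ := N / Real.log N ^ (k + 1) with hV
    have hV0 : 0 < V := by rw [hV]; positivity
    have k1 := hN₁ N g3 c A hAc hA hcard
    have k2 : θ2 * V ≤ θ1 * ∫ t in (2:ℝ)..N, 1 / Real.log t ^ (k + 1) := by
      refine le_trans ?_ (mul_le_mul_of_nonneg_left (int_low (k + 1) g4) h10.le)
      rw [hV, ← mul_div_assoc, ← mul_div_assoc]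
      apply div_le_div_of_nonneg_right _ (by positivity)
      rw [div_le_iff₀ (by linarith)] at g5
      linarith
    have k3 : θ2 * ∑ T ∈ A.powersetCard (k + 1), (V * Uni.CT T) ≤
        ∑ T ∈ A.powersetCard (k + 1), (Uni.piT T N : ℝ) := by
      refine le_trans ?_ k1
      rw [← mul_sum]
      calc θ2 * (V * ∑ T ∈ A.powersetCard (k + 1), Uni.CT T) =
          (θ2 * V) * ∑ T ∈ A.powersetCard (k + 1), Uni.CT T := by ring
        _ ≤ (θ1 * ∫ t in (2:ℝ)..N, 1 / Real.log t ^ (k + 1)) * ∑ T ∈ A.powersetCard (k + 1), Uni.CT T :=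
            mul_le_mul_of_nonneg_right k2 hS0
        _ = _ := by ring
    have k4 := sharp (A.powersetCard (k + 1)) (fun T => (Uni.piT T N : ℝ)) (fun T => V * Uni.CT T) hθ0.le hB
      (fun T _ => mul_nonneg hV0.le (Uni.CT_nonneg T)) k3 (by
        intro T hT
        rw [mem_powersetCard] at hT
        exact g2 T hT.2 (fun t ht => hA t (hT.1 ht)))
    have e1 : (A.powersetCard (k + 1)).filter (fun T => θ * (V * Uni.CT T) ≤ (Uni.piT T N : ℝ)) =
        (A.powersetCard (k + 1)).filter (fun T => θ * Uni.CT T * V ≤ (Uni.piT T N : ℝ)) := by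
      apply filter_congr
      intro T _
      rw [show θ * (V * Uni.CT T) = θ * Uni.CT T * V by ring]
    rw [e1, ← mul_sum, ← mul_sum] at k4
    set S := ∑ T ∈ A.powersetCard (k + 1), Uni.CT T with hS
    set S' := ∑ T ∈ (A.powersetCard (k + 1)).filter (fun T => θ * Uni.CT T * V ≤ (Uni.piT T N : ℝ)), Uni.CT T with hS'
    have k5 : (θ2 - θ) / B * S ≤ S' := by
      have : V * ((θ2 - θ) / B * S) ≤ V * S' := by
        calc V * ((θ2 - θ) / B * S) = (θ2 - θ) / B * (V * S) := by ring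
          _ ≤ _ := k4
      exact le_of_mul_le_mul_left this hV0
    refine le_trans ?_ k5
    apply mul_le_mul_of_nonneg_right _ hS0
    have e2 : θ2 - θ = (P - θ) / 3 := by rw [hθ2]; ring
    calc min c5 (1 / (3 * B)) * (P - θ) ≤ (1 / (3 * B)) * (P - θ) :=
          mul_le_mul_of_nonneg_right (min_le_right _ _) (by linarith)
      _ = (θ2 - θ) / B := by rw [e2]; field_simp

end Pool.Agent.W218.TX
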