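import Mathlib
import Pool.Agent.W218.TX.Main
import Pool.Agent.W218.SI.Lin6

set_option autoImplicit false

/-! Triples, counted with the counting measure. -/

namespace Pool.Agent.W218.TX

open Finset Filter Topology Pool.Agent.H387R2

/-- every `3`-element set is an increasing triple -/
lemma sorted3 {T : Finset ℕ} (hT : T.card = 3) : ∃ a b c : ℕ, a < b ∧ b < c ∧ T = {a, b, c} := by
  obtain ⟨x, y, z, hxy, hxz, hyz, rfl⟩ := card_eq_three.1 hT
  rcases lt_or_gt_of_ne hxy with h1 | h1 <;> rcases lt_or_gt_of_ne hxz with h2 | h2 <;>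
    rcases lt_or_gt_of_ne hyz with h3 | h3
  · exact ⟨x, y, z, h1, h3, rfl⟩
  · refine ⟨x, z, y, h2, h3, ?_⟩
    ext t; simp only [mem_insert, mem_singleton]; tauto
  · omega
  · refine ⟨z, x, y, h2, h1, ?_⟩
    ext t; simp only [mem_insert, mem_singleton]; tauto
  · refine ⟨y, x, z, h1, h2, ?_⟩
    ext t; simp only [mem_insert, mem_singleton]; tauto
  · omega
  · refine ⟨y, z, x, h3, h2, ?_⟩
    ext t; simp only [mem_insert, mem_singleton]; tauto
  · refine ⟨z, y, x, h3, h1, ?_⟩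
    ext t; simp only [mem_insert, mem_singleton]; tauto

/-- the increasing triples of `A` -/
def tri (A : Finset ℕ) : Finset (ℕ × ℕ × ℕ) :=
  (A ×ˢ A ×ˢ A).filter (fun u => u.1 < u.2.1 ∧ u.2.1 < u.2.2)

/-- the set of a triple -/
def st (u : ℕ × ℕ × ℕ) : Finset ℕ := {u.1, u.2.1, u.2.2}

lemma powerset_sub (A : Finset ℕ) : A.powersetCard 3 ⊆ (tri A).image st := by
  intro T hT
  rw [mem_powersetCard] at hT
  obtain ⟨a, b, c, hab, hbc, rfl⟩ := sorted3 hT.2
  rw [mem_image]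
  refine ⟨(a, b, c), ?_, rfl⟩
  unfold tri
  rw [mem_filter, mem_product, mem_product]
  refine ⟨⟨hT.1 (by simp), hT.1 (by simp), hT.1 (by simp)⟩, hab, hbc⟩

lemma sum_image_le' {α β : Type*} [DecidableEq β] (s : Finset α) (g : α → β) (f : β → ℝ)
    (hf : ∀ b ∈ s.image g, 0 ≤ f b) : ∑ b ∈ s.image g, f b ≤ ∑ a ∈ s, f (g a) := by
  rw [sum_comp f g]
  apply sum_le_sum
  intro b hb
  obtain ⟨a, ha, hab⟩ := mem_image.1 hb
  have h1 : 1 ≤ (s.filter (fun a => g a = b)).card := by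
    rw [Nat.one_le_iff_ne_zero, ← Nat.pos_iff_ne_zero, card_pos]
    exact ⟨a, mem_filter.2 ⟨ha, hab⟩⟩
  rw [nsmul_eq_mul]
  have h2 : (1:ℝ) ≤ (s.filter (fun a => g a = b)).card := by exact_mod_cast h1
  have := hf b hb
  nlinarith

lemma prs3 : Pool.Agent.H386R2.HL.prs 3 = {((0 : Fin 3), (1 : Fin 3)), (0, 2), (1, 2)} := by decide

lemma tt_zero {n : ℕ} (hn : 0 < n) : Pool.Agent.H386R2.HL.tt 0 n = Pool.Agent.Erdos456.GG n := by
  rw [Pool.Agent.Erdos456.GG_eq_prod hn]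
  unfold Pool.Agent.H386R2.HL.tt
  rw [filter_true_of_mem (fun p hp => (Nat.prime_of_mem_primeFactors hp).pos)]
  simp only [one_div]

lemma locT_trip {a b c : ℕ} (hab : a < b) (hbc : b < c) (p : ℕ) :
    Pool.Agent.H386R2.HL.localFactor ![a, b, c] p = Uni.locT {a, b, c} p := by
  have hcard : ({a, b, c} : Finset ℕ).card = 3 := by
    rw [card_eq_three]
    exact ⟨a, b, c, hab.ne, (hab.trans hbc).ne, hbc.ne, rfl⟩
  have e : Pool.Agent.H386R2.HL.nu ![a, b, c] p = Uni.nuT {a, b, c} p := by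
    unfold Pool.Agent.H386R2.HL.nu Uni.nuT
    congr 1
    ext v
    simp only [mem_image, mem_univ, true_and, mem_insert, mem_singleton, Fin.exists_fin_succ,
      exists_eq_or_imp, exists_eq_left]
    simp
  unfold Pool.Agent.H386R2.HL.localFactor Uni.locT
  rw [e, hcard, inv_pow, inv_mul_eq_div]

lemma CT_trip {a b c : ℕ} (hab : a < b) (hbc : b < c) :
    Uni.CT {a, b, c} ≤ Pool.Agent.Erdos456.GG (b - a) * (Pool.Agent.Erdos456.GG (c - a) *
      Pool.Agent.Erdos456.GG (c - b)) := by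
  have e : Uni.CT {a, b, c} = Pool.Agent.H386R2.HL.singularSeries ![a, b, c] := by
    unfold Uni.CT Pool.Agent.H386R2.HL.singularSeries
    simp_rw [locT_trip hab hbc]
  have hinj : Function.Injective ![a, b, c] := by
    intro i j hij
    fin_cases i <;> fin_cases j <;> simp_all <;> omega
  have h := Pool.Agent.H386R2.HL.singularSeries_le ![a, b, c] hinj 0
  have e2 : Pool.Agent.H386R2.HL.sy ![a, b, c] 0 = 1 := by
    unfold Pool.Agent.H386R2.HL.sy
    rw [show Nat.primesBelow (0 + 1) = ∅ from by decide, prod_empty]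
  rw [e]
  refine h.trans (le_of_eq ?_)
  rw [e2, one_mul, prs3, prod_insert (by decide), prod_insert (by decide), prod_singleton]
  simp only [Matrix.cons_val_zero, Matrix.cons_val_one, Matrix.cons_val]
  rw [Nat.dist_eq_sub_of_le hab.le, Nat.dist_eq_sub_of_le (hab.trans hbc).le, Nat.dist_eq_sub_of_le hbc.le,
    tt_zero (by omega), tt_zero (by omega), tt_zero (by omega)]

lemma sq3 {x y z : ℝ} (hx : 0 ≤ x) (hy : 0 ≤ y) (hz : 0 ≤ z) :
    (x * (y * z)) ^ 2 ≤ x ^ 6 + y ^ 6 + z ^ 6 := by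
  have key : ∀ u v w : ℝ, 0 ≤ u → 0 ≤ v → 0 ≤ w → u * (v * w) ≤ u ^ 3 + v ^ 3 + w ^ 3 := by
    intro u v w hu hv hw
    nlinarith [sq_nonneg (u - v), sq_nonneg (v - w), sq_nonneg (u - w), mul_nonneg hu hv,
      mul_nonneg hv hw, mul_nonneg hu hw, mul_nonneg (add_nonneg (add_nonneg hu hv) hw)
      (add_nonneg (add_nonneg (sq_nonneg (u - v)) (sq_nonneg (v - w))) (sq_nonneg (u - w))),
      mul_nonneg hu (mul_nonneg hv hw)]
  have := key (x ^ 2) (y ^ 2) (z ^ 2) (by positivity) (by positivity) (by positivity)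
  calc (x * (y * z)) ^ 2 = x ^ 2 * (y ^ 2 * z ^ 2) := by ring
    _ ≤ _ := this
    _ = _ := by ring

/-- second moment of the singular series over the triples of an interval -/
theorem sqMoment : ∃ C : ℝ, 0 < C ∧ ∃ X0 : ℕ, ∀ x : ℕ, X0 ≤ x → ∀ y : ℕ, ∀ A ⊆ Ioc y (y + x),
    ∑ T ∈ A.powersetCard 3, Uni.CT T ^ 2 ≤ C * (x : ℝ) ^ 3 := by
  classical
  obtain ⟨C, hC, X0, h⟩ := Pool.Agent.W218.SI.mom_shift 6 (by norm_num)
  refine ⟨3 * C, by positivity, X0, fun x hx y A hA => ?_⟩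
  have h1 := h x hx y A hA
  set g : ℕ → ℕ → ℝ := fun s t => Pool.Agent.Erdos456.GG ((s : ℤ) - t).natAbs ^ 6 with hg
  have hg0 : ∀ s t, 0 ≤ g s t := by
    intro s t
    rw [hg]
    have : 0 ≤ Pool.Agent.Erdos456.GG ((s : ℤ) - t).natAbs := by
      unfold Pool.Agent.Erdos456.GG
      positivity
    positivity
  have hAx : (A.card : ℝ) ≤ x := by
    have := card_le_card hA
    rw [Nat.card_Ioc] at this
    exact_mod_cast (this.trans (by omega))
  have hterm : ∀ u ∈ tri A, Uni.CT (st u) ^ 2 ≤ g u.2.1 u.1 + g u.2.2 u.1 + g u.2.2 u.2.1 := by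
    intro u hu
    unfold tri at hu
    rw [mem_filter] at hu
    obtain ⟨a, b, c⟩ := u
    simp only at hu ⊢
    obtain ⟨_, hab, hbc⟩ := hu
    have k1 := CT_trip hab hbc
    have gn : ∀ n : ℕ, 0 ≤ Pool.Agent.Erdos456.GG n := by
      intro n
      unfold Pool.Agent.Erdos456.GG
      positivity
    have k2 := pow_le_pow_left₀ (Uni.CT_nonneg _) k1 2
    refine le_trans (le_trans k2 (sq3 (gn _) (gn _) (gn _))) (le_of_eq ?_)
    rw [hg]
    simp only
    have e1 : ((b : ℤ) - a).natAbs = b - a := by omega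
    have e2 : ((c : ℤ) - a).natAbs = c - a := by omega
    have e3 : ((c : ℤ) - b).natAbs = c - b := by omega
    rw [e1, e2, e3]
  calc ∑ T ∈ A.powersetCard 3, Uni.CT T ^ 2 ≤ ∑ T ∈ (tri A).image st, Uni.CT T ^ 2 :=
        sum_le_sum_of_subset_of_nonneg (powerset_sub A) (fun T _ _ => sq_nonneg _)
    _ ≤ ∑ u ∈ tri A, Uni.CT (st u) ^ 2 := sum_image_le' _ _ _ (fun T _ => sq_nonneg _)
    _ ≤ ∑ u ∈ tri A, (g u.2.1 u.1 + g u.2.2 u.1 + g u.2.2 u.2.1) := sum_le_sum hterm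
    _ ≤ ∑ u ∈ A ×ˢ A ×ˢ A, (g u.2.1 u.1 + g u.2.2 u.1 + g u.2.2 u.2.1) := by
        apply sum_le_sum_of_subset_of_nonneg (filter_subset _ _)
        intro u _ _
        have := hg0 u.2.1 u.1
        have := hg0 u.2.2 u.1
        have := hg0 u.2.2 u.2.1
        linarith
    _ = 3 * (A.card * ∑ s ∈ A, ∑ t ∈ A, g s t) := by
        rw [sum_add_distrib, sum_add_distrib]
        simp only [sum_product]
        have e1 : ∑ a ∈ A, ∑ b ∈ A, ∑ _c ∈ A, g b a = A.card * ∑ s ∈ A, ∑ t ∈ A, g s t := by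
          rw [sum_comm, mul_sum]
          apply sum_congr rfl
          intro s _
          rw [mul_sum]
          apply sum_congr rfl
          intro t _
          rw [sum_const, nsmul_eq_mul]
        have e2 : ∑ a ∈ A, ∑ _b ∈ A, ∑ c ∈ A, g c a = A.card * ∑ s ∈ A, ∑ t ∈ A, g s t := by
          simp only [sum_const, nsmul_eq_mul]
          rw [← mul_sum, sum_comm]
        have e3 : ∑ _a ∈ A, ∑ b ∈ A, ∑ c ∈ A, g c b = A.card * ∑ s ∈ A, ∑ t ∈ A, g s t := by
          simp only [sum_const, nsmul_eq_mul]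
          rw [sum_comm]
        rw [e1, e2, e3]
        ring
    _ ≤ 3 * (x * (C * x ^ 2)) := by
        have : 0 ≤ ∑ s ∈ A, ∑ t ∈ A, g s t := sum_nonneg fun s _ => sum_nonneg fun t _ => hg0 s t
        gcongr
    _ = _ := by ring

end Pool.Agent.W218.TX
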