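import Mathlib
import Pool.Agent.W218.TX.Trip

set_option autoImplicit false

/-! Triples, counted with the counting measure. -/

namespace Pool.Agent.W218.TX

open Finset Filter Topology Pool.Agent.H387R2

/-- the singular series of `{0, d', d}` -/
noncomputable def SS (d' d : ℕ) : ℝ := ∏' p : Nat.Primes,
  ((1 - ((((({0, d', d} : Finset ℕ).image (fun n => n % (p : ℕ))).card : ℕ) : ℝ) / ((p : ℕ) : ℝ)))
    / (1 - 1 / ((p : ℕ) : ℝ)) ^ 3)

/-- the number of primes `p ≤ N` with `p - d`, `p - d'` prime -/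
def cnt3 (N d' d : ℕ) : ℕ := ((range (N + 1)).filter (fun p => p.Prime ∧ (p - d).Prime ∧ (p - d').Prime)).card

lemma card_image_congr {T : Finset ℕ} {f g : ℕ → ℕ} (h : ∀ s ∈ T, ∀ t ∈ T, f s = f t → g s = g t) :
    (T.image g).card ≤ (T.image f).card := by
  classical
  have hex : ∀ u ∈ T.image f, ∃ t ∈ T, f t = u := fun u hu => mem_image.1 hu
  choose! pre hpre1 hpre2 using hex
  have hsub : T.image g ⊆ (T.image f).image (fun u => g (pre u)) := by
    intro v hv
    obtain ⟨t, ht, rfl⟩ := mem_image.1 hv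
    rw [mem_image]
    refine ⟨f t, mem_image_of_mem f ht, ?_⟩
    have h1 := hpre1 (f t) (mem_image_of_mem f ht)
    have h2 := hpre2 (f t) (mem_image_of_mem f ht)
    exact h _ h1 _ ht h2
  exact (card_le_card hsub).trans card_image_le

lemma nu_refl {a b c : ℕ} (hab : a < b) (hbc : b < c) (p : ℕ) :
    Uni.nuT {a, b, c} p = (({0, c - b, c - a} : Finset ℕ).image (fun n => n % p)).card := by
  have e : ({0, c - b, c - a} : Finset ℕ) = ({a, b, c} : Finset ℕ).image (fun t => c - t) := by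
    rw [image_insert, image_insert, image_singleton, Nat.sub_self]
    ext t; simp only [mem_insert, mem_singleton]; tauto
  rw [e, image_image]
  unfold Uni.nuT
  have hle : ∀ t ∈ ({a, b, c} : Finset ℕ), t ≤ c := by
    intro t ht
    simp only [mem_insert, mem_singleton] at ht
    omega
  apply le_antisymm
  · apply card_image_congr
    intro s hs t ht h
    simp only [Function.comp] at h
    have h1 : s + (c - s) = t + (c - t) := by
      have := hle s hs; have := hle t ht; omega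
    exact Nat.ModEq.add_right_cancel (show (c - s) ≡ (c - t) [MOD p] from h) (by rw [h1])
  · apply card_image_congr
    intro s hs t ht h
    simp only [Function.comp]
    have h1 : s + (c - s) = t + (c - t) := by
      have := hle s hs; have := hle t ht; omega
    exact Nat.ModEq.add_left_cancel (show s ≡ t [MOD p] from h) (by rw [h1])

lemma card_trip {a b c : ℕ} (hab : a < b) (hbc : b < c) : ({a, b, c} : Finset ℕ).card = 3 :=
  card_eq_three.2 ⟨a, b, c, hab.ne, (hab.trans hbc).ne, hbc.ne, rfl⟩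

lemma SS_eq {a b c : ℕ} (hab : a < b) (hbc : b < c) : SS (c - b) (c - a) = Uni.CT {a, b, c} := by
  unfold SS Uni.CT Uni.locT
  simp_rw [nu_refl hab hbc, card_trip hab hbc]

lemma even_trip {a b c : ℕ} (hab : a < b) (hbc : b < c) (h : Uni.Adm {a, b, c}) :
    Even (c - b) ∧ Even (c - a) := by
  have h2 := h 2 Nat.prime_two
  unfold Uni.nuT at h2
  have key : ∀ s ∈ ({a, b, c} : Finset ℕ), ∀ t ∈ ({a, b, c} : Finset ℕ), s % 2 = t % 2 := by
    have h3 : (({a, b, c} : Finset ℕ).image (· % 2)).card ≤ 1 := by omega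
    rw [card_le_one] at h3
    intro s hs t ht
    exact h3 _ (mem_image_of_mem _ hs) _ (mem_image_of_mem _ ht)
  have k1 := key b (by simp) c (by simp)
  have k2 := key a (by simp) c (by simp)
  rw [Nat.even_iff, Nat.even_iff]
  omega

lemma shift_count {a b c N : ℕ} (hab : a < b) (hbc : b < c) :
    Uni.piT {a, b, c} N ≤ cnt3 N (c - b) (c - a) + (c - a) := by
  classical
  unfold Uni.piT
  split_ifs with hadm
  swap
  · omega
  have hinf : sInf (({a, b, c} : Finset ℕ) : Set ℕ) = a := by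
    apply le_antisymm
    · exact Nat.sInf_le (by simp)
    · have hne : ((({a, b, c} : Finset ℕ) : Set ℕ)).Nonempty := ⟨a, by simp⟩
      have := Nat.sInf_mem hne
      simp only [coe_insert, coe_singleton, Set.mem_insert_iff, Set.mem_singleton_iff] at this
      simp only [coe_insert, coe_singleton]
      omega
  rw [hinf]
  unfold cnt3
  have h1 : (((Icc 1 N).filter (fun p => ∀ t ∈ ({a, b, c} : Finset ℕ), (p + (t - a)).Prime)).image
      (fun p => p + (c - a))) ⊆
      ((range (N + 1)).filter (fun p => p.Prime ∧ (p - (c - a)).Prime ∧ (p - (c - b)).Prime)) ∪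
        Ioc N (N + (c - a)) := by
    intro P hP
    obtain ⟨p, hp, rfl⟩ := mem_image.1 hP
    rw [mem_filter, mem_Icc] at hp
    rw [mem_union, mem_filter, mem_range, mem_Ioc]
    by_cases h : p + (c - a) ≤ N
    · left
      refine ⟨by omega, hp.2 c (by simp), ?_, ?_⟩
      · have := hp.2 a (by simp)
        rw [Nat.sub_self, Nat.add_zero] at this
        rw [Nat.add_sub_cancel]
        exact this
      · have := hp.2 b (by simp)
        have e : p + (c - a) - (c - b) = p + (b - a) := by omega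
        rw [e]
        exact this
    · right
      omega
  have h2 := card_le_card h1
  rw [card_image_of_injective _ (fun x y h => by simpa using h)] at h2
  refine h2.trans ((card_union_le _ _).trans ?_)
  rw [Nat.card_Ioc]
  omega

/-- the good triples -/
noncomputable def good (θ : ℝ) (N : ℕ) (A : Finset ℕ) : Finset (ℕ × ℕ × ℕ) := by
  classical
  exact (tri A).filter (fun u => Even (u.2.2 - u.2.1) ∧ Even (u.2.2 - u.1) ∧
    0 < SS (u.2.2 - u.2.1) (u.2.2 - u.1) ∧
    θ * (SS (u.2.2 - u.2.1) (u.2.2 - u.1) * (N / Real.log N ^ 3)) ≤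
      (cnt3 N (u.2.2 - u.2.1) (u.2.2 - u.1) : ℝ))

theorem tripMain (ρ : ℝ) (hρ : 0 < ρ) : ∃ κ : ℝ, 0 < κ ∧ ∀ lam : ℝ, 2 < lam → ∀ θ : ℝ, 0 < θ →
    θ < (1 - 1 / lam) * (1 - 2 / lam) → ∀ C : ℝ, ∃ N₀ : ℕ, ∀ N : ℕ, N₀ ≤ N →
      ∀ (y x : ℕ) (A : Finset ℕ), ((y + x : ℕ) : ℝ) ≤ Real.log N ^ C → A ⊆ Ioc y (y + x) →
        ρ * x ≤ A.card → lam * Real.log N ≤ A.card →
        κ * ((1 - 1 / lam) * (1 - 2 / lam) - θ) ^ 2 * (A.card : ℝ) ^ 3 ≤ ((good θ N A).card : ℝ) := by
  classical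
  obtain ⟨κ₁, hκ₁, hmain⟩ := sharpMain 2
  obtain ⟨C₂, hC₂, X₀, hmom⟩ := sqMoment
  refine ⟨κ₁ ^ 4 * ρ ^ 3 / (4 * C₂), by positivity, ?_⟩
  intro lam hlam θ hθ0 hθ C
  set P : ℝ := (1 - 1 / lam) * (1 - 2 / lam) with hP
  have hprod : ∏ i ∈ range 2, (1 - (i + 1 : ℝ) / lam) = P := by
    rw [prod_range_succ, prod_range_one, hP]
    norm_num
  set θ' : ℝ := (θ + P) / 2 with hθ'
  have h1 : θ < θ' := by rw [hθ']; linarith
  have h2 : θ' < P := by rw [hθ']; linarith
  have h3 : 0 < θ' := by linarith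
  obtain ⟨N₁, hN₁⟩ := hmain lam (by exact_mod_cast hlam) θ' h3 (by rw [hprod]; exact h2) 1 le_rfl C
  have tN : Tendsto (fun N : ℕ => (N : ℝ)) atTop atTop := tendsto_natCast_atTop_atTop
  have tL : Tendsto (fun N : ℕ => Real.log (N : ℝ)) atTop atTop := Real.tendsto_log_atTop.comp tN
  rw [← eventually_atTop]
  filter_upwards [eventually_ge_atTop N₁, CT_low 2 C, tL.eventually_ge_atTop (max 1 (X₀ : ℝ)),
    tN.eventually (Uni.log_pow_small (C + 5) (η := (θ' - θ) / 2) (by linarith))] with N g1 g2 g3 g4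
  intro y x A hyx hA hρx hcard
  have hL1 : 1 ≤ Real.log N := (le_max_left _ _).trans g3
  have hLX : (X₀ : ℝ) ≤ Real.log N := (le_max_right _ _).trans g3
  set L := Real.log (N:ℝ) with hL
  have hL0 : 0 < L := by linarith
  have hN0 : (0:ℝ) < N := by
    by_contra h
    have h0 : (N:ℝ) = 0 := le_antisymm (not_lt.1 h) (Nat.cast_nonneg N)
    rw [hL, h0, Real.log_zero] at hL1
    linarith
  set V : ℝ := N / L ^ 3 with hV
  have hV0 : 0 < V := by positivity
  have hAle : ∀ a ∈ A, (a : ℝ) ≤ L ^ C := by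
    intro a ha
    have := (mem_Ioc.1 (hA ha)).2
    have h : (a:ℝ) ≤ ((y + x : ℕ) : ℝ) := by exact_mod_cast this
    exact h.trans hyx
  have hAx : (A.card : ℝ) ≤ x := by
    have := card_le_card hA
    rw [Nat.card_Ioc] at this
    exact_mod_cast (this.trans (by omega))
  have hx0 : X₀ ≤ x := by
    have : (X₀:ℝ) ≤ x := by
      have h1 : 1 * L ≤ lam * L := by
        apply mul_le_mul_of_nonneg_right _ hL0.le
        linarith
      linarith
    exact_mod_cast this
  have hm := hmom x hx0 y A hA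
  obtain ⟨s1, s2⟩ := hN₁ N g1 0 A (fun a _ => Nat.modEq_one) hAle (by simpa using hcard)
  rw [hprod] at s2
  simp only [Nat.totient_one, Nat.cast_one, div_one, one_pow, mul_one] at s1
  set G := (A.powersetCard (2 + 1)).filter (fun T => θ' * Uni.CT T * (N / Real.log N ^ (2 + 1)) ≤ Uni.piT T N) with hG
  set G' := G.filter (fun T => 0 < Uni.CT T) with hG'
  have hGs : ∑ T ∈ G, Uni.CT T = ∑ T ∈ G', Uni.CT T := by
    rw [hG']
    symm
    apply sum_filter_of_ne
    intro T _ hT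
    exact lt_of_le_of_ne (Uni.CT_nonneg T) (Ne.symm hT)
  set S := ∑ T ∈ A.powersetCard (2 + 1), Uni.CT T with hS
  have hCS : (∑ T ∈ G', Uni.CT T) ^ 2 ≤ (G'.card : ℝ) * (C₂ * (x:ℝ) ^ 3) := by
    refine (sq_sum_le_card_mul_sum_sq (s := G') (f := fun T => Uni.CT T)).trans ?_
    apply mul_le_mul_of_nonneg_left _ (Nat.cast_nonneg _)
    refine le_trans ?_ hm
    apply sum_le_sum_of_subset_of_nonneg
    · intro T hT
      rw [hG', mem_filter, hG, mem_filter] at hT
      exact hT.1.1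
    · intro T _ _
      exact sq_nonneg _
  have hsub : G' ⊆ (good θ N A).image st := by
    intro T hT
    rw [hG', mem_filter, hG, mem_filter] at hT
    obtain ⟨⟨hT1, hT2⟩, hT3⟩ := hT
    rw [mem_powersetCard] at hT1
    obtain ⟨a, b, c, hab, hbc, rfl⟩ := sorted3 hT1.2
    have ha : a ∈ A := hT1.1 (by simp)
    have hb : b ∈ A := hT1.1 (by simp)
    have hc : c ∈ A := hT1.1 (by simp)
    have hpos : (0:ℝ) < Uni.piT {a, b, c} N := lt_of_lt_of_le (by
      have : 0 < (N:ℝ) / Real.log N ^ (2 + 1) := hV0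
      positivity) hT2
    have hadm : Uni.Adm {a, b, c} := by
      by_contra hn
      unfold Uni.piT at hpos
      rw [if_neg hn] at hpos
      simp at hpos
    have hlow := g2 {a, b, c} hT1.2 (fun t ht => Nat.le_floor (hAle t (hT1.1 ht))) hadm
    rw [mem_image]
    refine ⟨(a, b, c), ?_, rfl⟩
    unfold good tri
    rw [mem_filter, mem_filter, mem_product, mem_product]
    refine ⟨⟨⟨ha, hb, hc⟩, hab, hbc⟩, ?_⟩
    simp only
    obtain ⟨e1, e2⟩ := even_trip hab hbc hadm
    refine ⟨e1, e2, ?_⟩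
    rw [SS_eq hab hbc]
    refine ⟨hT3, ?_⟩
    have hsc : (Uni.piT {a, b, c} N : ℝ) ≤ cnt3 N (c - b) (c - a) + (c - a : ℕ) := by
      exact_mod_cast shift_count hab hbc
    have hca : ((c - a : ℕ) : ℝ) ≤ L ^ C := by
      refine le_trans ?_ (hAle c hc)
      exact_mod_cast Nat.sub_le c a
    have hsmall : L ^ C ≤ (θ' - θ) * (Uni.CT {a, b, c} * V) := by
      have k1 : L ^ C * L ^ 5 ≤ (θ' - θ) / 2 * N := by
        have : L ^ (C + 5) = L ^ C * L ^ 5 := by
          rw [Real.rpow_add hL0]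
          norm_num
        rw [← this]
        exact g4
      have k2 : L ^ C ≤ (θ' - θ) * (1 / (2 * L ^ 2) * V) := by
        have e : (θ' - θ) * (1 / (2 * L ^ 2) * V) = ((θ' - θ) / 2 * N) / L ^ 5 := by
          rw [hV]; field_simp
        rw [e, le_div_iff₀ (by positivity)]
        exact k1
      refine k2.trans ?_
      apply mul_le_mul_of_nonneg_left _ (by linarith)
      exact mul_le_mul_of_nonneg_right hlow hV0.le
    have hT2' : θ' * (Uni.CT {a, b, c} * V) ≤ Uni.piT {a, b, c} N := by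
      refine le_trans (le_of_eq ?_) hT2
      rw [hV]; ring
    have : θ * (Uni.CT {a, b, c} * V) = θ' * (Uni.CT {a, b, c} * V) - (θ' - θ) * (Uni.CT {a, b, c} * V) := by ring
    linarith
  have hGc : (G'.card : ℝ) ≤ (good θ N A).card := by
    exact_mod_cast (card_le_card hsub).trans card_image_le
  refine le_trans ?_ hGc
  -- the lower bound of the sum
  have hA0 : (0:ℝ) < A.card := by
    have : 0 < lam * L := by positivity
    linarith
  have hx0' : (0:ℝ) < x := by linarith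
  have hPθ : P - θ' = (P - θ) / 2 := by rw [hθ']; ring
  have hsum : κ₁ ^ 2 * ((P - θ) / 2) * (A.card : ℝ) ^ 3 ≤ ∑ T ∈ G', Uni.CT T := by
    rw [← hGs]
    refine le_trans ?_ s2
    rw [hPθ]
    calc κ₁ ^ 2 * ((P - θ) / 2) * (A.card : ℝ) ^ 3 = κ₁ * ((P - θ) / 2) * (κ₁ * (A.card : ℝ) ^ 3) := by ring
      _ ≤ κ₁ * ((P - θ) / 2) * S := by
          apply mul_le_mul_of_nonneg_left s1
          have : 0 < P - θ := by linarith
          positivity
  have hsq : (κ₁ ^ 2 * ((P - θ) / 2) * (A.card : ℝ) ^ 3) ^ 2 ≤ (G'.card : ℝ) * (C₂ * (x:ℝ) ^ 3) := by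
    refine le_trans (pow_le_pow_left₀ ?_ hsum 2) hCS
    have : 0 < P - θ := by linarith
    positivity
  have hx3 : ρ ^ 3 * (x:ℝ) ^ 3 ≤ (A.card : ℝ) ^ 3 := by
    rw [← mul_pow]
    exact pow_le_pow_left₀ (by positivity) hρx 3
  have hfin : κ₁ ^ 4 * ρ ^ 3 / (4 * C₂) * (P - θ) ^ 2 * (A.card : ℝ) ^ 3 * (C₂ * (x:ℝ) ^ 3) ≤
      (G'.card : ℝ) * (C₂ * (x:ℝ) ^ 3) := by
    refine le_trans ?_ hsq
    have e : κ₁ ^ 4 * ρ ^ 3 / (4 * C₂) * (P - θ) ^ 2 * (A.card : ℝ) ^ 3 * (C₂ * (x:ℝ) ^ 3) =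
        (κ₁ ^ 4 / 4 * (P - θ) ^ 2 * (A.card : ℝ) ^ 3) * (ρ ^ 3 * (x:ℝ) ^ 3) := by
      field_simp
    rw [e]
    calc (κ₁ ^ 4 / 4 * (P - θ) ^ 2 * (A.card : ℝ) ^ 3) * (ρ ^ 3 * (x:ℝ) ^ 3)
        ≤ (κ₁ ^ 4 / 4 * (P - θ) ^ 2 * (A.card : ℝ) ^ 3) * (A.card : ℝ) ^ 3 := by
          apply mul_le_mul_of_nonneg_left hx3
          positivity
      _ = _ := by ring
  exact le_of_mul_le_mul_right hfin (by positivity)

end Pool.Agent.W218.TX
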