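import Mathlib
import Pool.Agent.W218.TX.Trip2

set_option autoImplicit false

/-! Triples: real variable, pairs of differences, the region of the question. -/

namespace Pool.Agent.W218.TX

open Finset Filter Topology Pool.Agent.H387R2

open Classical in
theorem tripReal (ρ : ℝ) (hρ : 0 < ρ) : ∃ κ : ℝ, 0 < κ ∧ ∀ lam : ℝ, 2 < lam → ∀ θ : ℝ, 0 < θ →
    θ < (1 - 1 / lam) * (1 - 2 / lam) → ∀ C : ℝ, ∃ X : ℝ, ∀ x : ℝ, X ≤ x →
      ∀ (y H : ℕ) (A : Finset ℕ), ((y + H : ℕ) : ℝ) ≤ Real.log x ^ C → A ⊆ Ioc y (y + H) →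
        ρ * H ≤ A.card → lam * Real.log x ≤ A.card →
        κ * ((1 - 1 / lam) * (1 - 2 / lam) - θ) ^ 2 * (A.card : ℝ) ^ 3 ≤
          (((A ×ˢ A ×ˢ A).filter (fun u : ℕ × ℕ × ℕ => u.1 < u.2.1 ∧ u.2.1 < u.2.2 ∧
            Even (u.2.2 - u.2.1) ∧ Even (u.2.2 - u.1) ∧ 0 < SS (u.2.2 - u.2.1) (u.2.2 - u.1) ∧
            θ * (SS (u.2.2 - u.2.1) (u.2.2 - u.1) * (x / Real.log x ^ 3)) ≤
              (cnt3 ⌊x⌋₊ (u.2.2 - u.2.1) (u.2.2 - u.1) : ℝ))).card : ℝ) := by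
  obtain ⟨κ, hκ, hmain⟩ := tripMain ρ hρ
  refine ⟨κ / 4, by positivity, fun lam hlam θ hθ0 hθ C => ?_⟩
  set P : ℝ := (1 - 1 / lam) * (1 - 2 / lam) with hP
  set θ' : ℝ := (θ + P) / 2 with hθ'
  have h1 : θ < θ' := by rw [hθ']; linarith
  have h2 : θ' < P := by rw [hθ']; linarith
  set Cp : ℝ := max C 0 with hCp
  have hCp0 : 0 ≤ Cp := le_max_right _ _
  obtain ⟨N₀, hN₀⟩ := hmain lam hlam θ' (by linarith) h2 (Cp + 1)
  have tF : Tendsto (fun x : ℝ => ⌊x⌋₊) atTop atTop := tendsto_nat_floor_atTop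
  have tN : Tendsto (fun x : ℝ => ((⌊x⌋₊ : ℕ) : ℝ)) atTop atTop := tendsto_natCast_atTop_atTop.comp tF
  have tL : Tendsto (fun x : ℝ => Real.log ((⌊x⌋₊ : ℕ) : ℝ)) atTop atTop := Real.tendsto_log_atTop.comp tN
  rw [← eventually_atTop]
  filter_upwards [tF.eventually_ge_atTop N₀, tN.eventually_ge_atTop (max 2 (θ / (θ' - θ))),
    tL.eventually_ge_atTop (max 1 (2 ^ Cp)), eventually_ge_atTop (2:ℝ)] with x g1 g2 g3 g4
  intro y H A hyH hA hρH hcard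
  set N : ℕ := ⌊x⌋₊ with hN
  have hN2 : (2:ℝ) ≤ N := (le_max_left _ _).trans g2
  have hNθ : θ / (θ' - θ) ≤ N := (le_max_right _ _).trans g2
  have hL1 : 1 ≤ Real.log (N:ℝ) := (le_max_left _ _).trans g3
  have hL2 : 2 ^ Cp ≤ Real.log (N:ℝ) := (le_max_right _ _).trans g3
  have hNx : (N:ℝ) ≤ x := Nat.floor_le (by linarith)
  have hxN : x ≤ N + 1 := (Nat.lt_floor_add_one x).le
  have hlog1 : Real.log (N:ℝ) ≤ Real.log x := Real.log_le_log (by linarith) hNx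
  have hlog2 : Real.log x ≤ 2 * Real.log (N:ℝ) := by
    have : Real.log x ≤ Real.log ((N:ℝ) ^ 2) := Real.log_le_log (by linarith) (by nlinarith)
    rw [Real.log_pow] at this
    exact_mod_cast this
  have hC : Real.log x ^ C ≤ Real.log (N:ℝ) ^ (Cp + 1) := by
    calc Real.log x ^ C ≤ Real.log x ^ Cp :=
          Real.rpow_le_rpow_of_exponent_le (by linarith) (le_max_left _ _)
      _ ≤ (2 * Real.log (N:ℝ)) ^ Cp := Real.rpow_le_rpow (by linarith) hlog2 hCp0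
      _ = 2 ^ Cp * Real.log (N:ℝ) ^ Cp := Real.mul_rpow (by norm_num) (by linarith)
      _ ≤ Real.log (N:ℝ) * Real.log (N:ℝ) ^ Cp := by
          apply mul_le_mul_of_nonneg_right hL2
          positivity
      _ = Real.log (N:ℝ) ^ (Cp + 1) := by
          rw [Real.rpow_add (by linarith), Real.rpow_one, mul_comm]
  have k := hN₀ N g1 y H A (hyH.trans hC) hA hρH (by
    refine le_trans ?_ hcard
    apply mul_le_mul_of_nonneg_left hlog1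
    linarith)
  have hPθ : (P - θ') ^ 2 = (P - θ) ^ 2 / 4 := by rw [hθ']; ring
  rw [hPθ] at k
  have e0 : κ / 4 * (P - θ) ^ 2 * (A.card : ℝ) ^ 3 = κ * ((P - θ) ^ 2 / 4) * (A.card : ℝ) ^ 3 := by ring
  rw [e0]
  refine k.trans ?_
  have hsub : good θ' N A ⊆ (A ×ˢ A ×ˢ A).filter (fun u : ℕ × ℕ × ℕ => u.1 < u.2.1 ∧ u.2.1 < u.2.2 ∧
            Even (u.2.2 - u.2.1) ∧ Even (u.2.2 - u.1) ∧ 0 < SS (u.2.2 - u.2.1) (u.2.2 - u.1) ∧
            θ * (SS (u.2.2 - u.2.1) (u.2.2 - u.1) * (x / Real.log x ^ 3)) ≤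
              (cnt3 ⌊x⌋₊ (u.2.2 - u.2.1) (u.2.2 - u.1) : ℝ)) := by
    intro u hu
    unfold good tri at hu
    rw [mem_filter, mem_filter] at hu
    rw [mem_filter]
    obtain ⟨⟨hu1, hu2, hu3⟩, hu4, hu5, hu6, hu7⟩ := hu
    refine ⟨hu1, hu2, hu3, hu4, hu5, hu6, le_trans ?_ hu7⟩
    set S := SS (u.2.2 - u.2.1) (u.2.2 - u.1) with hS
    have e1 : θ * (S * (x / Real.log x ^ 3)) = S * (θ * x / Real.log x ^ 3) := by ring
    have e2 : θ' * (S * (N / Real.log N ^ 3)) = S * (θ' * N / Real.log N ^ 3) := by ring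
    rw [e1, e2]
    apply mul_le_mul_of_nonneg_left _ hu6.le
    have hθN : θ * x ≤ θ' * N := by
      rw [div_le_iff₀ (by linarith)] at hNθ
      have : θ * x ≤ θ * (N + 1) := mul_le_mul_of_nonneg_left hxN hθ0.le
      linarith
    apply div_le_div₀
    · have : 0 ≤ θ' := by linarith
      positivity
    · exact hθN
    · have : 0 < Real.log (N:ℝ) := by linarith
      positivity
    · exact pow_le_pow_left₀ (by linarith) hlog1 3
  exact_mod_cast card_le_card hsub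

open Classical in
theorem pairsReal : ∃ κ : ℝ, 0 < κ ∧ ∀ lam : ℝ, 2 < lam → ∀ θ : ℝ, 0 < θ →
    θ < (1 - 1 / lam) * (1 - 2 / lam) → ∀ C : ℝ, ∃ X : ℝ, ∀ x : ℝ, X ≤ x →
      ∀ H : ℕ, lam * Real.log x ≤ H → (H : ℝ) ≤ Real.log x ^ C →
        κ * ((1 - 1 / lam) * (1 - 2 / lam) - θ) ^ 2 * (H : ℝ) ^ 2 ≤
          (((Icc 2 H ×ˢ Icc 2 H).filter (fun u : ℕ × ℕ => Even u.1 ∧ Even u.2 ∧ u.1 < u.2 ∧
            0 < SS u.1 u.2 ∧ θ * (SS u.1 u.2 * (x / Real.log x ^ 3)) ≤ (cnt3 ⌊x⌋₊ u.1 u.2 : ℝ))).card : ℝ) := by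
  obtain ⟨κ, hκ, hmain⟩ := tripReal 1 one_pos
  refine ⟨κ, hκ, fun lam hlam θ hθ0 hθ C => ?_⟩
  obtain ⟨X, hX⟩ := hmain lam hlam θ hθ0 hθ C
  refine ⟨max X 3, fun x hx H hH1 hH2 => ?_⟩
  have k := hX x ((le_max_left _ _).trans hx) 0 H (Ioc 0 H) (by simpa using hH2) (by simp) (by simp) (by simpa using hH1)
  have hx3 : 3 ≤ x := (le_max_right _ _).trans hx
  have hl : 0 < Real.log x := Real.log_pos (by linarith)
  have hH0 : (0:ℝ) < H := by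
    have : 0 < lam * Real.log x := by positivity
    linarith
  rw [Nat.card_Ioc, Nat.sub_zero] at k
  set B := (Icc 2 H ×ˢ Icc 2 H).filter (fun u : ℕ × ℕ => Even u.1 ∧ Even u.2 ∧ u.1 < u.2 ∧
            0 < SS u.1 u.2 ∧ θ * (SS u.1 u.2 * (x / Real.log x ^ 3)) ≤ (cnt3 ⌊x⌋₊ u.1 u.2 : ℝ)) with hB
  have h1 : ((Ioc 0 H ×ˢ Ioc 0 H ×ˢ Ioc 0 H).filter (fun u : ℕ × ℕ × ℕ => u.1 < u.2.1 ∧ u.2.1 < u.2.2 ∧
            Even (u.2.2 - u.2.1) ∧ Even (u.2.2 - u.1) ∧ 0 < SS (u.2.2 - u.2.1) (u.2.2 - u.1) ∧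
            θ * (SS (u.2.2 - u.2.1) (u.2.2 - u.1) * (x / Real.log x ^ 3)) ≤
              (cnt3 ⌊x⌋₊ (u.2.2 - u.2.1) (u.2.2 - u.1) : ℝ))).card ≤ (Ioc 0 H ×ˢ B).card := by
    apply card_le_card_of_injOn (fun u => (u.1, u.2.2 - u.2.1, u.2.2 - u.1))
    · intro u hu
      rw [mem_coe, mem_filter, mem_product, mem_product, mem_Ioc, mem_Ioc, mem_Ioc] at hu
      obtain ⟨⟨a1, a2, a3⟩, a4, a5, a6, a7, a8, a9⟩ := hu
      rw [mem_coe, mem_product, hB, mem_filter, mem_product, mem_Icc, mem_Icc, mem_Ioc]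
      simp only
      have a6' := a6
      have a7' := a7
      rw [Nat.even_iff] at a6' a7'
      refine ⟨a1, ⟨⟨by omega, by omega⟩, ⟨by omega, by omega⟩⟩, a6, a7, by omega, a8, a9⟩
    · intro u hu v hv h
      rw [mem_coe, mem_filter, mem_product, mem_product] at hu hv
      simp only [Prod.mk.injEq] at h
      obtain ⟨e1, e2, e3⟩ := h
      obtain ⟨_, a4, a5, _⟩ := hu
      obtain ⟨_, b4, b5, _⟩ := hv
      ext <;> omega
  rw [card_product, Nat.card_Ioc, Nat.sub_zero] at h1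
  have h2 : κ * ((1 - 1 / lam) * (1 - 2 / lam) - θ) ^ 2 * (H : ℝ) ^ 3 ≤ (H : ℝ) * B.card := by
    refine k.trans ?_
    exact_mod_cast h1
  have h3 : H * (κ * ((1 - 1 / lam) * (1 - 2 / lam) - θ) ^ 2 * (H : ℝ) ^ 2) ≤ (H : ℝ) * B.card := by
    refine le_trans (le_of_eq ?_) h2
    ring
  exact le_of_mul_le_mul_left h3 hH0

open Classical in
theorem region : ∃ κ : ℝ, 0 < κ ∧ ∀ ε : ℝ, 0 < ε → ε < 1 → ∃ X : ℝ, ∀ x : ℝ, X ≤ x →
    κ * ε ^ 2 * Real.log x ^ 4 ≤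
      (((Icc 2 ⌊Real.log x ^ 2⌋₊ ×ˢ Icc 2 ⌊Real.log x ^ 2⌋₊).filter (fun u : ℕ × ℕ =>
        Even u.1 ∧ Even u.2 ∧ u.1 < u.2 ∧ 0 < SS u.1 u.2 ∧
        (1 - ε) * (SS u.1 u.2 * (x / Real.log x ^ 3)) ≤ (cnt3 ⌊x⌋₊ u.1 u.2 : ℝ))).card : ℝ) := by
  obtain ⟨κ, hκ, hmain⟩ := pairsReal
  refine ⟨κ / 16, by positivity, fun ε hε0 hε1 => ?_⟩
  set lam : ℝ := 6 / ε with hlam
  have hl6 : 6 < lam := by rw [hlam, lt_div_iff₀ hε0]; linarith
  have hP : 1 - ε / 2 ≤ (1 - 1 / lam) * (1 - 2 / lam) := by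
    have e1 : 1 / lam = ε / 6 := by rw [hlam]; field_simp
    have e2 : 2 / lam = ε / 3 := by rw [hlam]; field_simp; ring
    rw [e1, e2]
    nlinarith
  obtain ⟨X, hX⟩ := hmain lam (by linarith) (1 - ε) (by linarith) (by linarith) 2
  rw [← eventually_atTop]
  filter_upwards [eventually_ge_atTop X, Real.tendsto_log_atTop.eventually_ge_atTop (lam + 1)] with x g1 g2
  have hL : 7 ≤ Real.log x := by linarith
  have hsq : Real.log x ^ (2:ℝ) = Real.log x ^ 2 := Real.rpow_natCast _ 2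
  have hfl : (⌊Real.log x ^ 2⌋₊ : ℝ) ≤ Real.log x ^ 2 := Nat.floor_le (by positivity)
  have hfl2 : Real.log x ^ 2 - 1 ≤ (⌊Real.log x ^ 2⌋₊ : ℝ) := by
    have := Nat.lt_floor_add_one (Real.log x ^ 2)
    linarith
  have k := hX x g1 ⌊Real.log x ^ 2⌋₊ (by nlinarith) (by rw [hsq]; exact hfl)
  refine le_trans ?_ k
  have h1 : (ε / 2) ^ 2 ≤ ((1 - 1 / lam) * (1 - 2 / lam) - (1 - ε)) ^ 2 :=
    pow_le_pow_left₀ (by linarith) (by linarith) 2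
  have h2 : (Real.log x ^ 2 / 2) ^ 2 ≤ (⌊Real.log x ^ 2⌋₊ : ℝ) ^ 2 :=
    pow_le_pow_left₀ (by positivity) (by nlinarith) 2
  calc κ / 16 * ε ^ 2 * Real.log x ^ 4 = κ * (ε / 2) ^ 2 * (Real.log x ^ 2 / 2) ^ 2 := by ring
    _ ≤ _ := by gcongr

end Pool.Agent.W218.TX
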